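import Mathlib

/-!
# Perfect cones spanned by `g` independent rank-one forms need not be basic

Let `C` be the self-dual binary code `[22,11,6]` (the shortened Golay code).  The lattice
`ℤ^22 + (1/2) C` has only the minimal vectors `± e_i`, while `(1/2) ∑ e_i e_iᵀ` is integral
with respect to it.
-/

namespace Pool.Agent.Results.MP_aa1cdf_co.CodeLattice

open Matrix

/-- The rank-one matrix `p(v) = v vᵀ`. -/
def p {g : ℕ} (v : Fin g → ℤ) : Matrix (Fin g) (Fin g) ℤ := Matrix.vecMulVec v v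

/-- The lattice `Sym²(ℤ^g)` of integral symmetric `g × g` matrices. -/
def SymZ (g : ℕ) : Submodule ℤ (Matrix (Fin g) (Fin g) ℤ) where
  carrier := {M | M.IsSymm}
  add_mem' := fun ha hb => Matrix.IsSymm.add ha hb
  zero_mem' := Matrix.isSymm_zero
  smul_mem' := fun c _ hM => Matrix.IsSymm.smul hM c

/-- The value `xᵀ Q x` of the quadratic form with matrix `Q` at an integer vector `x`. -/
def val {g : ℕ} (Q : Matrix (Fin g) (Fin g) ℝ) (x : Fin g → ℤ) : ℝ :=
  (fun i => (x i : ℝ)) ⬝ᵥ (Q *ᵥ fun i => (x i : ℝ))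

/-- `Min(Q)`: the nonzero integer vectors at which `Q` attains its minimum over the
nonzero integer vectors. -/
def MinVectors {g : ℕ} (Q : Matrix (Fin g) (Fin g) ℝ) : Set (Fin g → ℤ) :=
  {x | x ≠ 0 ∧ ∀ y : Fin g → ℤ, y ≠ 0 → val Q x ≤ val Q y}

/-- `{p(v_1), …, p(v_k)}` generates a perfect cone: `Min(Q) = {± v_1, …, ± v_k}` for some
positive definite `Q`. -/
def GeneratesPerfectCone {g k : ℕ} (v : Fin k → Fin g → ℤ) : Prop :=
  ∃ Q : Matrix (Fin g) (Fin g) ℝ, Q.PosDef ∧ MinVectors Q = {x | ∃ i, x = v i ∨ x = -v i}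

/-- The `p(v_i)` can be extended to a `ℤ`-basis of `Sym²(ℤ^g)`. -/
def ExtendsToBasis {g k : ℕ} (v : Fin k → Fin g → ℤ) : Prop :=
  ∃ (ι : Type) (b : Module.Basis ι ℤ (SymZ g)),
    ∀ i, ∃ j, (b j : Matrix (Fin g) (Fin g) ℤ) = p (v i)

/-! ### The code lattice -/

/-- circulant 0/1 matrix -/
def A (i j : Fin 11) : ℕ :=
  if (j - i = 0 ∨ j - i = 1 ∨ j - i = 2 ∨ j - i = 4 ∨ j - i = 7) then 1 else 0

/-- the 22 vectors -/
def w : Fin (11 + 11) → Fin (11 + 11) → ℤ := fun l a =>
  if hl : l.val < 11 then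
    (if ha : a.val < 11 then (if a = l then 2 else 0)
      else -(A ⟨l.val, hl⟩ ⟨a.val - 11, by omega⟩ : ℤ))
  else (if a = l then 1 else 0)

/-- the matrix with `L w_l = 2 e_l` -/
def L : Matrix (Fin (11 + 11)) (Fin (11 + 11)) ℤ := fun a l =>
  if ha : a.val < 11 then (if a = l then 1 else 0)
  else
    (if hl : l.val < 11 then (A ⟨l.val, hl⟩ ⟨a.val - 11, by omega⟩ : ℤ)
      else (if a = l then 2 else 0))

/-- the matrix with columns `w_l` -/
def W : Matrix (Fin (11 + 11)) (Fin (11 + 11)) ℤ := fun a l => w l a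

theorem L_w' : ∀ l a : Fin (11 + 11), (L *ᵥ w l) a = if a = l then 2 else 0 := by
  decide +kernel

theorem WL' : ∀ a b : Fin (11 + 11), (W * L) a b = if a = b then 2 else 0 := by
  decide +kernel

theorem even_sum : ∀ a b : Fin (11 + 11), (2 : ℤ) ∣ ∑ l : Fin (11 + 11), w l a * w l b := by
  decide +kernel

/-- weight of the code word with information bits `r` -/
def wt (r : Fin 11 → Fin 2) : ℕ :=
  (∑ i, (r i).val) + ∑ j, ((∑ i, A i j * (r i).val) % 2)

theorem wt_ge : ∀ r : Fin 11 → Fin 2, r ≠ 0 → 5 ≤ wt r := by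
  decide +kernel

theorem WL : W * L = (2 : ℤ) • (1 : Matrix (Fin (11 + 11)) (Fin (11 + 11)) ℤ) := by
  ext a b
  rw [WL', Matrix.smul_apply, Matrix.one_apply]
  split_ifs <;> simp

theorem L_low (x : Fin (11 + 11) → ℤ) (i : Fin 11) :
    (L *ᵥ x) (Fin.castAdd 11 i) = x (Fin.castAdd 11 i) := by
  have h : ∀ l, L (Fin.castAdd 11 i) l = if Fin.castAdd 11 i = l then 1 else 0 := by
    intro l
    simp [L]
  simp [Matrix.mulVec, dotProduct, h]

theorem L_high (x : Fin (11 + 11) → ℤ) (j : Fin 11) :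
    (L *ᵥ x) (Fin.natAdd 11 j) =
      2 * x (Fin.natAdd 11 j) + ∑ i : Fin 11, (A i j : ℤ) * x (Fin.castAdd 11 i) := by
  have h1 : ∀ i : Fin 11, L (Fin.natAdd 11 j) (Fin.castAdd 11 i) = A i j := by
    intro i
    simp [L]
  have h2 : ∀ i : Fin 11, L (Fin.natAdd 11 j) (Fin.natAdd 11 i) = if i = j then 2 else 0 := by
    intro i
    simp [L, Fin.ext_iff, eq_comm]
  simp only [Matrix.mulVec, dotProduct]
  rw [Fin.sum_univ_add]
  simp only [h1, h2]
  simp [add_comm]

/-- the norm form -/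
def N (x : Fin (11 + 11) → ℤ) : ℤ := ∑ a, ((L *ᵥ x) a) ^ 2

theorem emod_two_le_sq (y : ℤ) : y % 2 ≤ y ^ 2 := by
  rcases Int.emod_two_eq_zero_or_one y with h | h
  · rw [h]; positivity
  · rw [h]
    have : y ≠ 0 := by rintro rfl; simp at h
    have := Int.one_le_abs this
    nlinarith [sq_abs y]

theorem N_odd (x : Fin (11 + 11) → ℤ) (h : ∃ i : Fin 11, x (Fin.castAdd 11 i) % 2 ≠ 0) :
    5 ≤ N x := by
  have hr : ∀ y : ℤ, ∃ r : Fin 2, ((r.val : ℕ) : ℤ) = y % 2 := by
    intro y
    rcases Int.emod_two_eq_zero_or_one y with h | h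
    · exact ⟨0, by simp [h]⟩
    · exact ⟨1, by simp [h]⟩
  choose r hr using fun i : Fin 11 => hr (x (Fin.castAdd 11 i))
  have hr0 : r ≠ 0 := by
    rintro rfl
    obtain ⟨i, hi⟩ := h
    exact hi (by rw [← hr i]; simp)
  have h5 := wt_ge r hr0
  have h5' : (5 : ℤ) ≤ ((wt r : ℕ) : ℤ) := by exact_mod_cast h5
  refine h5'.trans ?_
  unfold wt N
  rw [Fin.sum_univ_add (fun a => ((L *ᵥ x) a) ^ 2)]
  push_cast
  refine add_le_add (Finset.sum_le_sum fun i _ => ?_) (Finset.sum_le_sum fun j _ => ?_)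
  · rw [hr i, L_low]
    exact emod_two_le_sq _
  · refine le_trans (le_of_eq ?_) (emod_two_le_sq _)
    rw [L_high]
    have e1 : (2 * x (Fin.natAdd 11 j) + ∑ i : Fin 11, (A i j : ℤ) * x (Fin.castAdd 11 i)) % 2
        = (∑ i : Fin 11, (A i j : ℤ) * x (Fin.castAdd 11 i)) % 2 := by omega
    rw [e1, Finset.sum_int_mod, Finset.sum_int_mod _ _ (fun i => (A i j : ℤ) * x _)]
    congr 1
    refine Finset.sum_congr rfl fun i _ => ?_
    rw [hr i, Int.mul_emod, Int.emod_emod_of_dvd _ (dvd_refl 2), ← Int.mul_emod]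

theorem exists_unit {n : ℕ} (z : Fin n → ℤ) (h : ∑ l, z l ^ 2 = 1) :
    ∃ l, z = Pi.single l 1 ∨ z = Pi.single l (-1) := by
  have hz : ∃ l, z l ≠ 0 := by
    by_contra hc
    push Not at hc
    simp [hc] at h
  obtain ⟨l, hl⟩ := hz
  have hl1 : 1 ≤ z l ^ 2 := by
    have := Int.one_le_abs hl
    nlinarith [sq_abs (z l)]
  have hsum := Finset.add_sum_erase Finset.univ (fun l => z l ^ 2) (Finset.mem_univ l)
  have hnn : 0 ≤ ∑ k ∈ Finset.univ.erase l, z k ^ 2 :=
    Finset.sum_nonneg fun k _ => sq_nonneg _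
  have hl2 : z l ^ 2 = 1 := by linarith
  have h0 : ∑ k ∈ Finset.univ.erase l, z k ^ 2 = 0 := by linarith
  have hk : ∀ k, k ≠ l → z k = 0 := by
    intro k hk
    have := (Finset.sum_eq_zero_iff_of_nonneg (fun k _ => sq_nonneg (z k))).1 h0 k
      (Finset.mem_erase.2 ⟨hk, Finset.mem_univ k⟩)
    exact (pow_eq_zero_iff (two_ne_zero)).1 this
  refine ⟨l, ?_⟩
  have hl3 : z l = 1 ∨ z l = -1 := by
    have : (z l - 1) * (z l + 1) = 0 := by linarith
    rcases mul_eq_zero.1 this with h | h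
    · left; linarith
    · right; linarith
  rcases hl3 with h1 | h1
  · left
    funext k
    by_cases hkl : k = l
    · subst hkl; simp [h1]
    · simp [hk k hkl, hkl]
  · right
    funext k
    by_cases hkl : k = l
    · subst hkl; simp [h1]
    · simp [hk k hkl, hkl]

theorem L_w (l : Fin (11 + 11)) : L *ᵥ w l = Pi.single l 2 := by
  funext a
  rw [L_w', Pi.single_apply]

theorem L_inj {x y : Fin (11 + 11) → ℤ} (h : L *ᵥ x = L *ᵥ y) : x = y := by
  have h2 : W *ᵥ (L *ᵥ x) = W *ᵥ (L *ᵥ y) := by rw [h]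
  rw [Matrix.mulVec_mulVec, Matrix.mulVec_mulVec, WL, Matrix.smul_mulVec, Matrix.smul_mulVec,
    Matrix.one_mulVec, Matrix.one_mulVec] at h2
  funext i
  have := congrFun h2 i
  simp only [Pi.smul_apply, smul_eq_mul] at this
  omega

theorem N_w (l : Fin (11 + 11)) : N (w l) = 4 := by
  unfold N
  rw [L_w]
  simp [Pi.single_apply]

theorem N_neg (x : Fin (11 + 11) → ℤ) : N (-x) = N x := by
  simp [N, Matrix.mulVec_neg]

theorem N_ge (x : Fin (11 + 11) → ℤ) (hx : x ≠ 0) :
    4 ≤ N x ∧ (N x = 4 → ∃ l, x = w l ∨ x = -w l) := by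
  by_cases h : ∃ i : Fin 11, x (Fin.castAdd 11 i) % 2 ≠ 0
  · have := N_odd x h
    exact ⟨by linarith, fun h => by linarith⟩
  · push Not at h
    have hy : ∀ a, ∃ z, (L *ᵥ x) a = 2 * z := by
      intro a
      induction a using Fin.addCases with
      | left i =>
        rw [L_low]
        exact ⟨x (Fin.castAdd 11 i) / 2, by have := h i; omega⟩
      | right j =>
        rw [L_high]
        have : ∑ i : Fin 11, (A i j : ℤ) * x (Fin.castAdd 11 i) =
            2 * ∑ i : Fin 11, (A i j : ℤ) * (x (Fin.castAdd 11 i) / 2) := by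
          rw [Finset.mul_sum]
          refine Finset.sum_congr rfl fun i _ => ?_
          have h1 : x (Fin.castAdd 11 i) = 2 * (x (Fin.castAdd 11 i) / 2) := by
            have := h i; omega
          conv_lhs => rw [h1]
          ring
        rw [this]
        exact ⟨_, (mul_add _ _ _).symm⟩
    choose z hz using hy
    have hN : N x = 4 * ∑ l, z l ^ 2 := by
      unfold N
      rw [Finset.mul_sum]
      refine Finset.sum_congr rfl fun l _ => ?_
      rw [hz]; ring
    have hz0 : ∃ l, z l ≠ 0 := by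
      by_contra hc
      push Not at hc
      apply hx
      apply L_inj
      funext a
      rw [hz, hc]
      simp
    have hpos : 1 ≤ ∑ l, z l ^ 2 := by
      obtain ⟨l, hl⟩ := hz0
      have h1 : 1 ≤ z l ^ 2 := by
        have := Int.one_le_abs hl
        nlinarith [sq_abs (z l)]
      exact h1.trans (Finset.single_le_sum (f := fun l => z l ^ 2)
        (fun k _ => sq_nonneg _) (Finset.mem_univ l))
    refine ⟨by rw [hN]; linarith, fun h4 => ?_⟩
    obtain ⟨l, hl⟩ := exists_unit z (by linarith)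
    refine ⟨l, ?_⟩
    rcases hl with hl | hl
    · left
      apply L_inj
      rw [L_w]
      funext a
      rw [hz, hl, Pi.single_apply, Pi.single_apply]
      split_ifs <;> simp
    · right
      apply L_inj
      rw [Matrix.mulVec_neg, L_w]
      funext a
      rw [hz, hl, Pi.neg_apply, Pi.single_apply, Pi.single_apply]
      split_ifs <;> simp

/-- the real form of `L` -/
noncomputable def LR : Matrix (Fin (11 + 11)) (Fin (11 + 11)) ℝ := L.map ((↑) : ℤ → ℝ)

theorem LR_mulVec (x : Fin (11 + 11) → ℤ) :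
    LR *ᵥ (fun i => (x i : ℝ)) = fun a => (((L *ᵥ x) a : ℤ) : ℝ) := by
  funext a
  simp [LR, Matrix.mulVec, dotProduct]

theorem LR_inj : Function.Injective LR.mulVec := by
  have hWL : (W.map ((↑) : ℤ → ℝ)) * LR = (2 : ℝ) • 1 := by
    have h := congrArg (fun M : Matrix (Fin (11 + 11)) (Fin (11 + 11)) ℤ =>
      M.map (Int.castRingHom ℝ)) WL
    simp only [Matrix.map_mul] at h
    have e : (((2 : ℤ) • (1 : Matrix (Fin (11 + 11)) (Fin (11 + 11)) ℤ)).map
        (Int.castRingHom ℝ)) = (2 : ℝ) • 1 := by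
      ext a b
      rw [Matrix.map_apply, Matrix.smul_apply, Matrix.smul_apply, Matrix.one_apply,
        Matrix.one_apply]
      split_ifs <;> simp
    rw [e] at h
    exact h
  intro x y hxy
  have h2 : (W.map ((↑) : ℤ → ℝ)) *ᵥ (LR *ᵥ x) = (W.map ((↑) : ℤ → ℝ)) *ᵥ (LR *ᵥ y) := by
    rw [show LR *ᵥ x = LR *ᵥ y from hxy]
  rw [Matrix.mulVec_mulVec, Matrix.mulVec_mulVec, hWL, Matrix.smul_mulVec, Matrix.smul_mulVec,
    Matrix.one_mulVec, Matrix.one_mulVec] at h2
  funext i
  have := congrFun h2 i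
  simp only [Pi.smul_apply, smul_eq_mul] at this
  linarith

/-- the Gram matrix -/
noncomputable def Q : Matrix (Fin (11 + 11)) (Fin (11 + 11)) ℝ := LRᴴ * LR

theorem val_Q (x : Fin (11 + 11) → ℤ) : val Q x = (N x : ℝ) := by
  unfold val Q
  rw [Matrix.conjTranspose_eq_transpose_of_trivial, ← Matrix.mulVec_mulVec,
    Matrix.dotProduct_mulVec, Matrix.vecMul_transpose, LR_mulVec]
  unfold N
  push_cast
  simp only [dotProduct]
  refine Finset.sum_congr rfl fun a _ => ?_
  ring

theorem w_ne_zero (l : Fin (11 + 11)) : w l ≠ 0 := by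
  intro h
  have := N_w l
  rw [h] at this
  simp [N] at this

theorem generates : GeneratesPerfectCone w := by
  refine ⟨Q, Matrix.PosDef.conjTranspose_mul_self _ LR_inj, ?_⟩
  ext x
  simp only [MinVectors, Set.mem_ofPred_eq]
  constructor
  · rintro ⟨hx, hmin⟩
    have h1 := hmin (w 0) (w_ne_zero 0)
    rw [val_Q, val_Q, N_w] at h1
    have h2 : N x ≤ 4 := by exact_mod_cast h1
    have h3 := N_ge x hx
    exact h3.2 (le_antisymm h2 h3.1)
  · rintro ⟨l, hl⟩
    have hN : N x = 4 := by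
      rcases hl with rfl | rfl
      · exact N_w l
      · rw [N_neg, N_w]
    have hx : x ≠ 0 := by
      rintro rfl
      simp [N] at hN
    refine ⟨hx, fun y hy => ?_⟩
    rw [val_Q, val_Q, hN]
    exact_mod_cast (N_ge y hy).1

theorem lin_indep : LinearIndependent ℤ w := by
  rw [Fintype.linearIndependent_iff]
  intro c hc i
  have h1 : L *ᵥ (∑ l, c l • w l) = fun a => 2 * c a := by
    rw [Matrix.mulVec_sum]
    funext a
    simp only [Matrix.mulVec_smul, L_w]
    simp [Finset.sum_apply, Pi.single_apply, mul_comm]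
  rw [hc, Matrix.mulVec_zero] at h1
  have := congrFun h1 i
  simp only [Pi.zero_apply] at this
  omega

theorem diag_inj : ∀ l m : Fin (11 + 11), w l l * w l l = w m l * w m l →
    w l m * w l m = w m m * w m m → l = m := by
  decide +kernel

theorem p_inj {l m : Fin (11 + 11)} (h : p (w l) = p (w m)) : l = m := by
  have h1 := congrFun (congrFun h l) l
  have h2 := congrFun (congrFun h m) m
  simp only [p, Matrix.vecMulVec_apply] at h1 h2
  exact diag_inj l m h1 h2

theorem not_basis : ¬ ExtendsToBasis w := by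
  classical
  rintro ⟨ι, b, hb⟩
  choose f hf using hb
  have hfinj : Function.Injective f := by
    intro l m hlm
    apply p_inj
    rw [← hf l, ← hf m, hlm]
  choose M hM using even_sum
  have hsym : ∀ a b, M a b = M b a := by
    intro a b
    have h1 := hM a b
    have h2 := hM b a
    have h3 : ∑ l, w l a * w l b = ∑ l, w l b * w l a :=
      Finset.sum_congr rfl fun l _ => mul_comm _ _
    omega
  let Ms : SymZ (11 + 11) := ⟨Matrix.of M, by
    show (Matrix.of M).IsSymm
    ext a b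
    exact hsym b a⟩
  have hsum : (2 : ℤ) • Ms = ∑ l, b (f l) := by
    apply Subtype.ext
    ext a c
    simp only [Submodule.coe_smul, Submodule.coe_sum, Matrix.smul_apply, Matrix.sum_apply]
    simp only [hf, p, Matrix.vecMulVec_apply, Ms, Matrix.of_apply, smul_eq_mul]
    exact (hM a c).symm
  have h2 : ∀ l, b.repr (b (f l)) (f 0) = if l = 0 then 1 else 0 := by
    intro l
    rw [Module.Basis.repr_self, Finsupp.single_apply]
    simp only [hfinj.eq_iff]
  have h3 : b.repr (∑ l, b (f l)) (f 0) = 1 := by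
    rw [map_sum, Finsupp.finsetSum_apply]
    simp only [h2]
    simp
  have h4 : b.repr ((2 : ℤ) • Ms) (f 0) = 2 * b.repr Ms (f 0) := by
    rw [map_smul]; rfl
  rw [hsum, h3] at h4
  omega

theorem result : ∃ v : Fin 22 → Fin 22 → ℤ,
    LinearIndependent ℤ v ∧ GeneratesPerfectCone v ∧ ¬ ExtendsToBasis v :=
  ⟨w, lin_indep, generates, not_basis⟩

end Pool.Agent.Results.MP_aa1cdf_co.CodeLattice
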